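import Pool.Agent.W_cd7020_h81f.FHandL

/-!
# Almost spanning rainbow cycles in all proper edge colourings
-/

set_option autoImplicit false

namespace Pool.Agent.Results.MP_cd7020_co.AllColourings

/-- There is `n₀` such that the following holds for all `n ≥ n₀` and every proper edge colouring `c` of
the complete graph on `n` vertices; `L = ⌈log₂ n⌉`. There is a path `w` with ends `u ≠ v` such that the
edges of `w` and the edge `uv` have pairwise distinct colours, `w` has at least `n - L ^ 207` vertices,
and `w` is a Hamiltonian path unless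
* there are at least `n - L ^ 566` colours each of which is missing at at most `n / L ^ 358` vertices and
  which altogether are missing at most `n L ^ 207` times,
* the number of colours of `c` is at most `n L ^ 567`, and
* `|S| + |F| < |w| + L ^ 207` for every set `S` of colours each of which is missing at at most
  `n / L ^ 358` vertices and every set `F` of edges of a path with pairwise distinct colours
  outside `S`. -/
theorem result : ∃ n₀ : ℕ, ∀ n, n₀ ≤ n → ∀ c : Sym2 (Fin n) → ℕ,
    (∀ a b d : Fin n, a ≠ b → a ≠ d → b ≠ d → c s(a, b) ≠ c s(a, d)) →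
    ∃ (u v : Fin n) (w : (⊤ : SimpleGraph (Fin n)).Walk u v), w.IsPath ∧ u ≠ v ∧
      ((s(u, v) :: w.edges).map c).Nodup ∧
      n ≤ w.support.length + (Nat.clog 2 n) ^ 207 ∧
      (w.IsHamiltonian ∨
        (∃ S : Finset ℕ, n ≤ S.card + (Nat.clog 2 n) ^ 566 ∧
          (∀ k ∈ S, (Finset.univ.filter (fun x : Fin n => ∀ y, y ≠ x → c s(x, y) ≠ k)).card *
            (Nat.clog 2 n) ^ 358 ≤ n) ∧
          ∑ k ∈ S, (Finset.univ.filter (fun x : Fin n => ∀ y, y ≠ x → c s(x, y) ≠ k)).card ≤
            n * (Nat.clog 2 n) ^ 207) ∧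
        (((Finset.univ : Finset (Sym2 (Fin n))).filter (fun e => ¬ e.IsDiag)).image c).card ≤
          n * (Nat.clog 2 n) ^ 567 ∧
        ∀ (S : Finset ℕ) (a b : Fin n) (p : (⊤ : SimpleGraph (Fin n)).Walk a b)
          (F : Finset (Sym2 (Fin n))),
          (∀ k ∈ S, (Finset.univ.filter (fun x : Fin n => ∀ y, y ≠ x → c s(x, y) ≠ k)).card *
            (Nat.clog 2 n) ^ 358 ≤ n) →
          p.IsPath → (∀ e ∈ F, e ∈ p.edges ∧ c e ∉ S) →
          (∀ e ∈ F, ∀ f ∈ F, c e = c f → e = f) →
          S.card + F.card < w.support.length + (Nat.clog 2 n) ^ 207) :=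
  Pool.Agent.W_cd7020_h81f.hand_allL

end Pool.Agent.Results.MP_cd7020_co.AllColourings
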