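import Pool.Agent.W_cd7020_h81b.Hand

/-!
# Almost spanning rainbow cycles in balanced colourings
-/

set_option autoImplicit false

namespace Pool.Agent.Results.MP_cd7020_co.BalancedColourings

/-- Let `c` be a proper edge colouring of the complete graph on `n` vertices, `L = ⌈log₂ n⌉`,
`L ^ 400 ≤ n`. Let `S` be a set of at least `n - 1` colours such that every colour of `S` is missing
at at most `n / L ^ 177` vertices and at every vertex at most `n / L ^ 177` colours of `S` are
missing. Then there is a path `w` with ends `u ≠ v` such that the edges of `w` and the edge `uv` have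
pairwise distinct colours, all in `S`, and either `w` is a Hamiltonian path or `w` has more than
`|S| - L ^ 207` vertices. -/
theorem result (n : ℕ) (h3 : 3 ≤ n) (c : Sym2 (Fin n) → ℕ)
    (hc : ∀ a b d : Fin n, a ≠ b → a ≠ d → b ≠ d → c s(a, b) ≠ c s(a, d)) (S : Finset ℕ)
    (hn : (Nat.clog 2 n) ^ 400 ≤ n) (hS : n ≤ S.card + 1)
    (hSc : ∀ k ∈ S, (Finset.univ.filter (fun x : Fin n => ∀ y, y ≠ x → c s(x, y) ≠ k)).card *
      (Nat.clog 2 n) ^ 177 ≤ n)
    (hSv : ∀ x : Fin n, (S.filter (fun k => ∀ y, y ≠ x → c s(x, y) ≠ k)).card *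
      (Nat.clog 2 n) ^ 177 ≤ n) :
    ∃ (u v : Fin n) (w : (⊤ : SimpleGraph (Fin n)).Walk u v), w.IsPath ∧ u ≠ v ∧
      ((s(u, v) :: w.edges).map c).Nodup ∧ (∀ e ∈ s(u, v) :: w.edges, c e ∈ S) ∧
      (w.IsHamiltonian ∨ S.card < w.support.length + (Nat.clog 2 n) ^ 207) :=
  Pool.Agent.W_cd7020_h81b.hand n h3 c hc S hn hS hSc hSv

end Pool.Agent.Results.MP_cd7020_co.BalancedColourings
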