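import Pool.Agent.W_cd7020_h81.FinalC

/-!
# Rainbow Hamiltonian paths in colourings with many colours
-/

set_option autoImplicit false

namespace Pool.Agent.Results.MP_cd7020_co.ManyColours

/-- Every proper edge colouring of the complete graph on `n` vertices which uses at least
`10 ^ 13 n ^ (3/2) log n` colours has a Hamiltonian path whose edges, together with the edge between
its two end vertices, have pairwise distinct colours. -/
theorem result (n : ℕ) (hn : 2 ≤ n) (c : Sym2 (Fin n) → ℕ)
    (hc : ∀ a b d : Fin n, a ≠ b → a ≠ d → b ≠ d → c s(a, b) ≠ c s(a, d))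
    (hq : (10 : ℝ) ^ 13 * (n : ℝ) ^ (3 / 2 : ℝ) * Real.log n ≤
      (((Finset.univ : Finset (Sym2 (Fin n))).filter (fun e => ¬ e.IsDiag)).image c).card) :
    ∃ (u v : Fin n) (w : (⊤ : SimpleGraph (Fin n)).Walk u v),
      w.IsHamiltonian ∧ u ≠ v ∧ ((s(u, v) :: w.edges).map c).Nodup :=
  Pool.Agent.W_cd7020_h81.tour_many n hn c hc hq

end Pool.Agent.Results.MP_cd7020_co.ManyColours
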