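import Pool.Agent.W_cd7020_h81.FinalC

/-!
# Rainbow Hamiltonian paths from rainbow triangles with spread colours
-/

set_option autoImplicit false

namespace Pool.Agent.Results.MP_cd7020_co.SpreadTriangles

/-- Let `c` be a proper edge colouring of the complete graph on `n` vertices (with any number of
colours) and let `t 0, ..., t (m - 1)` be `m` disjoint triangles whose `3 m` edges have distinct
colours, where `m ≥ 10 ^ 8 (log n) √n` and `m ≤ n / 1000`. Call the colours of the edges at the first
vertices of the triangles special. If all but `n (log n) / m` vertices see at most `m / 100` special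
colours, then there is a Hamiltonian path whose edges, together with the edge between its two end
vertices, have pairwise distinct colours. -/
theorem result (n m : ℕ) (c : Sym2 (Fin n) → ℕ)
    (hc : ∀ a b d : Fin n, a ≠ b → a ≠ d → b ≠ d → c s(a, b) ≠ c s(a, d))
    (t : Fin m → Fin 3 → Fin n)
    (ht : Function.Injective (fun p : Fin m × Fin 3 => t p.1 p.2))
    (htc : Function.Injective (fun p : Fin m × Fin 3 => c s(t p.1 p.2, t p.1 (p.2 + 1))))
    (hm1 : 1 ≤ m) (hmn : 1000 * m ≤ n) (hm : 10 ^ 16 * (Nat.clog 2 n) ^ 2 * n ≤ m ^ 2)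
    (hs : ((Finset.univ : Finset (Fin n)).filter (fun x => m < 100 *
      (Finset.univ.filter (fun w => w ≠ x ∧ ∃ i, c s(x, w) = c s(t i 0, t i 1) ∨
        c s(x, w) = c s(t i 2, t i 0))).card)).card * m ≤ Nat.clog 2 n * n) :
    ∃ (u v : Fin n) (w : (⊤ : SimpleGraph (Fin n)).Walk u v),
      w.IsHamiltonian ∧ u ≠ v ∧ ((s(u, v) :: w.edges).map c).Nodup :=
  Pool.Agent.W_cd7020_h81.tour_tri n m c hc t ht htc hm1 hmn hm hs

end Pool.Agent.Results.MP_cd7020_co.SpreadTriangles
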